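import Pool.Agent.J6H84.LM.Stm

/-!
# Module LINEQ: the direction theorem for every finite field, by counting
-/

set_option autoImplicit false

namespace Pool.Agent.J6H3.LM.LineQ

open Finset Pool.Agent.J6H84.LM

section
variable {K : Type} [Field K]

/-- representatives of the forms -/
def rr : Option K → K × K
  | none => (0, 1)
  | some x => (1, x)

/-- a vector in the kernel -/
def dir : Option K → K × K
  | none => (1, 0)
  | some x => (-x, 1)

open Classical in
/-- the class of the forms which vanish at `v` -/
noncomputable def cl (v : K × K) : Option K := if v.2 = 0 then none else some (-v.1 / v.2)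

open Classical in
/-- the class of the form `w` -/
noncomputable def fc (w : K × K) : Option K := if w.1 = 0 then none else some (w.2 / w.1)

theorem cl_iff (v : K × K) (hv : v ≠ 0) (x : Option K) : dot (rr x) v = 0 ↔ cl v = x := by
  unfold cl
  cases x with
  | none =>
    simp only [rr, dot]
    split_ifs with h
    · simp [h]
    · simp [h]
  | some x =>
    simp only [rr, dot]
    split_ifs with h
    · have h1 : v.1 ≠ 0 := fun h1 => hv (Prod.ext h1 h)
      simp [h, h1]
    · rw [Option.some.injEq, div_eq_iff h]
      constructor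
      · intro h'
        linear_combination (-1 : K) * h'
      · intro h'
        linear_combination (-1 : K) * h'

theorem dot_sub (w z z' : K × K) : dot w (z - z') = dot w z - dot w z' := by
  simp only [dot, Prod.fst_sub, Prod.snd_sub]
  ring

theorem fc_spec (w : K × K) (hw : w ≠ 0) :
    ∃ c : K, c ≠ 0 ∧ ∀ v, dot w v = c * dot (rr (fc w)) v := by
  unfold fc
  split_ifs with h
  · refine ⟨w.2, fun h2 => hw (Prod.ext h h2), fun v => ?_⟩
    simp only [dot, rr, h]
    ring
  · refine ⟨w.1, h, fun v => ?_⟩
    simp only [dot, rr]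
    field_simp

theorem fc_inj (w w' : K × K) (h : fc w = fc w') : w.1 * w'.2 = w.2 * w'.1 := by
  unfold fc at h
  split_ifs at h with h1 h2 h2
  · rw [h1, h2, zero_mul, mul_zero]
  · rw [Option.some.injEq, div_eq_div_iff h1 h2] at h
    linear_combination (-1 : K) * h

theorem dot_dir (x : Option K) : dot (rr x) (dir x) = 0 := by
  cases x <;> simp [rr, dir, dot]

theorem rr_ne (x : Option K) : rr x ≠ 0 := by
  cases x with
  | none => intro h; exact one_ne_zero (Prod.ext_iff.1 h).2
  | some x => intro h; exact one_ne_zero (Prod.ext_iff.1 h).1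

theorem dir_inj (x : Option K) (s t : K) (h : s • dir x = t • dir x) : s = t := by
  cases x with
  | none =>
    have := (Prod.ext_iff.1 h).1
    simpa [dir] using this
  | some x =>
    have := (Prod.ext_iff.1 h).2
    simpa [dir] using this

theorem dot_line (x : Option K) (P : K × K) (s : K) :
    dot (rr x) (P + s • dir x) = dot (rr x) P := by
  have h := dot_dir x
  simp only [dot, Prod.fst_add, Prod.snd_add, Prod.smul_fst, Prod.smul_snd, smul_eq_mul] at h ⊢
  linear_combination s * h

end

theorem main : S_LineQ := by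
  classical
  intro K _ _ N _ hlt ι _ f hι hf U hU hinj
  by_contra hcon
  push Not at hcon
  have hq2 : 1 < Fintype.card K := Fintype.one_lt_card
  -- the forms are nonzero
  have hne : ∀ i, f i ≠ 0 := by
    intro i hi
    obtain ⟨z, hz, z', hz', hzz⟩ := Finset.one_lt_card.1 (hU ▸ hq2)
    apply hzz
    apply hinj i z hz z' hz'
    simp [hi, dot]
  -- the classes of the forms
  set g : ι → Option K := fun i => fc (f i) with hg
  have hginj : Function.Injective g := by
    intro i j hij
    by_contra hne'
    exact hf i j hne' (fc_inj _ _ hij)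
  set I : Finset (Option K) := Finset.univ.image g with hI
  have hIcard : I.card = Fintype.card ι := by
    rw [hI, Finset.card_image_of_injective _ hginj, Finset.card_univ]
  have hIinj : ∀ x ∈ I, ∀ z ∈ U, ∀ z' ∈ U, dot (rr x) z = dot (rr x) z' → z = z' := by
    intro x hx z hz z' hz' h
    rw [hI, Finset.mem_image] at hx
    obtain ⟨i, -, rfl⟩ := hx
    obtain ⟨c, hc, hc'⟩ := fc_spec (f i) (hne i)
    apply hinj i z hz z' hz'
    rw [hc' z, hc' z']
    exact congrArg (fun y => c * y) h
  have hScard : I.card + Iᶜ.card = Fintype.card K + 1 := by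
    rw [Finset.card_add_card_compl, Fintype.card_option]
  -- the point P
  obtain ⟨P, hP⟩ : U.Nonempty := by
    rw [← Finset.card_pos, hU]
    omega
  have hmaps : ∀ z ∈ U.erase P, cl (z - P) ∈ Iᶜ := by
    intro z hz
    rw [Finset.mem_erase] at hz
    rw [Finset.mem_compl]
    intro hmem
    have hv : z - P ≠ 0 := sub_ne_zero.2 hz.1
    have h1 := (cl_iff (z - P) hv _).2 rfl
    rw [dot_sub, sub_eq_zero] at h1
    exact hz.1 (hIinj _ hmem z hz.2 P hP h1)
  have hcardP : (U.erase P).card = Fintype.card K - 1 := by
    rw [Finset.card_erase_of_mem hP, hU]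
  have hne2 : (Iᶜ : Finset (Option K)).Nonempty := by
    have : (U.erase P).Nonempty := by
      rw [← Finset.card_pos, hcardP]
      omega
    obtain ⟨z, hz⟩ := this
    exact ⟨_, hmaps z hz⟩
  obtain ⟨x, hx, hmax⟩ := Finset.exists_max_image Iᶜ
    (fun x => ((U.erase P).filter (fun z => cl (z - P) = x)).card) hne2
  set m := ((U.erase P).filter (fun z => cl (z - P) = x)).card with hm
  have hsum : Fintype.card K - 1 ≤ Iᶜ.card * m := by
    rw [← hcardP, Finset.card_eq_sum_card_fiberwise hmaps]
    refine (Finset.sum_le_card_nsmul _ _ m (fun y hy => hmax y hy)).trans ?_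
    rw [smul_eq_mul]
  -- the point Q
  obtain ⟨s, hs⟩ : ∃ s : K, P + s • dir x ∉ U := by
    by_contra hall
    push Not at hall
    have hinj' : Function.Injective (fun s : K => P + s • dir x) := by
      intro a b hab
      exact dir_inj x a b (add_left_cancel hab)
    have himg : Finset.univ.image (fun s : K => P + s • dir x) = U := by
      apply Finset.eq_of_subset_of_card_le
      · intro y hy
        rw [Finset.mem_image] at hy
        obtain ⟨a, -, rfl⟩ := hy
        exact hall a
      · rw [Finset.card_image_of_injective _ hinj', Finset.card_univ, hU]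
    obtain ⟨z, hz, z', hz', hzz⟩ := hcon (rr x) (rr_ne x)
    rw [← himg, Finset.mem_image] at hz hz'
    obtain ⟨a, -, rfl⟩ := hz
    obtain ⟨b, -, rfl⟩ := hz'
    exact hzz (by rw [dot_line, dot_line])
  set Q := P + s • dir x with hQ
  have hQdot : dot (rr x) Q = dot (rr x) P := dot_line x P s
  have hzQ : ∀ z ∈ U, z - Q ≠ 0 := by
    intro z hz h
    rw [sub_eq_zero] at h
    exact hs (h ▸ hz)
  -- the class x at Q
  have hA : m + 1 ≤ (U.filter (fun z => cl (z - Q) = x)).card := by
    have hsub : insert P ((U.erase P).filter (fun z => cl (z - P) = x)) ⊆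
        U.filter (fun z => cl (z - Q) = x) := by
      intro z hz
      rw [Finset.mem_insert, Finset.mem_filter, Finset.mem_erase] at hz
      rw [Finset.mem_filter]
      rcases hz with rfl | ⟨⟨hz1, hz2⟩, hz3⟩
      · refine ⟨hP, ?_⟩
        rw [← cl_iff _ (hzQ _ hP), dot_sub, hQdot, sub_self]
      · refine ⟨hz2, ?_⟩
        have h1 := (cl_iff (z - P) (sub_ne_zero.2 hz1) x).2 hz3
        rw [dot_sub, sub_eq_zero] at h1
        rw [← cl_iff _ (hzQ _ hz2), dot_sub, hQdot, h1, sub_self]
    have h2 := Finset.card_le_card hsub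
    rw [Finset.card_insert_of_notMem] at h2
    · exact h2
    · simp
  -- the classes of the forms at Q
  have hB : I.card ≤ (U.filter (fun z => cl (z - Q) ∈ I)).card := by
    have hsub : I ⊆ (U.filter (fun z => cl (z - Q) ∈ I)).image (fun z => cl (z - Q)) := by
      intro y hy
      have hinjU : Set.InjOn (fun z => dot (rr y) z) (U : Set (K × K)) :=
        fun z hz z' hz' h => hIinj y hy z hz z' hz' h
      have himg : U.image (fun z => dot (rr y) z) = Finset.univ := by
        apply Finset.eq_univ_of_card
        rw [Finset.card_image_of_injOn hinjU, hU]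
      have hmem : dot (rr y) Q ∈ U.image (fun z => dot (rr y) z) := by
        rw [himg]
        exact Finset.mem_univ _
      rw [Finset.mem_image] at hmem
      obtain ⟨z, hz, hzy⟩ := hmem
      have h1 : cl (z - Q) = y := by
        rw [← cl_iff _ (hzQ _ hz), dot_sub]
        exact sub_eq_zero.2 hzy
      rw [Finset.mem_image]
      exact ⟨z, Finset.mem_filter.2 ⟨hz, by rw [h1]; exact hy⟩, h1⟩
    exact (Finset.card_le_card hsub).trans Finset.card_image_le
  have hdisj : Disjoint (U.filter (fun z => cl (z - Q) = x)) (U.filter (fun z => cl (z - Q) ∈ I)) := by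
    rw [Finset.disjoint_left]
    intro z hz hz'
    rw [Finset.mem_filter] at hz hz'
    rw [hz.2] at hz'
    exact (Finset.mem_compl.1 hx) hz'.2
  have hC : m + 1 + I.card ≤ Fintype.card K := by
    rw [← hU]
    calc m + 1 + I.card ≤ (U.filter (fun z => cl (z - Q) = x)).card +
          (U.filter (fun z => cl (z - Q) ∈ I)).card := Nat.add_le_add hA hB
      _ = ((U.filter (fun z => cl (z - Q) = x)) ∪ (U.filter (fun z => cl (z - Q) ∈ I))).card :=
          (Finset.card_union_of_disjoint hdisj).symm
      _ ≤ U.card := Finset.card_le_card (Finset.union_subset (Finset.filter_subset _ _)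
          (Finset.filter_subset _ _))
  -- the end
  have hNI : N ≤ I.card := by
    rw [hIcard]
    exact hι
  obtain ⟨a, ha⟩ : ∃ a, Fintype.card K = I.card + a := ⟨Fintype.card K - I.card, by omega⟩
  have hD : Iᶜ.card = a + 1 := by omega
  have hma : m + 1 ≤ a := by omega
  rw [hD] at hsum
  have h1 : Fintype.card K ≤ a ^ 2 := by
    obtain ⟨b, rfl⟩ : ∃ b, a = b + 1 := ⟨a - 1, by omega⟩
    have h2 : (b + 1 + 1) * m ≤ (b + 1 + 1) * b := Nat.mul_le_mul_left _ (by omega)
    have h3 : (b + 1) ^ 2 = (b + 1 + 1) * b + 1 := by ring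
    omega
  have h2 : a ≤ Fintype.card K - N := by omega
  have h3 : a ^ 2 ≤ (Fintype.card K - N) ^ 2 := Nat.pow_le_pow_left h2 2
  omega

end Pool.Agent.J6H3.LM.LineQ
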